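import Pool.Agent.T2h30.KA.Fin4

set_option autoImplicit false

/-!
# Capacitated packing of k-arborescences and elimination orderings

The conjecture of Q1, for all `k`, `l` and all capacities, for the digraphs `D` for which the arcs on
directed cycles of `D - r0` are contained in a relation `R` with an elimination ordering: the vertices
other than `r0` are deleted one by one, and each deleted vertex `v` has at most two neighbours left
(which are then joined in both directions), or there is a vertex `u ≠ v` that belongs to each strongly
connected set of at least two of the vertices left (with `v`) that contains `v`; if `u` is left, then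
the in-neighbours left of `v` are joined to `u` and `u` to the out-neighbours left of `v`.

Examples: each strong component of `D - r0` has an underlying graph of treewidth at most two (so all
digraphs with at most three vertices besides `r0`), or a vertex that meets all its directed cycles; or
`D - r0` has Kelly-width at most two.

Proof. A packing of `k l` arborescences is split into `l` weight functions with in-degree `k` at every
vertex and at most `k(|X| - 1)` inside each nonempty `X` without `r0`. Two such functions are resplit
as evenly as possible, until all values are at most one; then Edmonds' disjoint arborescences theorem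
(the starting library `Pool.Agent.H470R3`) gives the `k`-arborescences. For the resplitting, the arcs
of odd total weight are coloured with two colours, alternating on a union of two matchings: pairs with
the same head, and a matching of the pairs `{x, y}` with an odd number of odd arcs, such that for each
set `X`, strongly connected under `R`, at most `2 k (|X| - 1) - w(X)` of the odd pairs inside `X` are
not matched inside `X`. This matching is found along the elimination ordering: for two neighbours by
moving the surplus weight of the two pairs at `v` to the pair of the neighbours, for a vertex `u` as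
above by moving weight from pairs `{v, a}` to `{u, a}`; each unit move changes the parity of two pairs,
which are inside the same sets `X` that contain `v` and `u`. It is enough to look at strongly connected
sets `X`, and arcs between different strong components of `D - r0` may be treated as arcs leaving `r0`.

Contributors to the Lean code: helper13, helper33, helper44, helper57, helper60, helper76, helper84,
helper85, helper94, helper30.
-/

namespace Pool.Agent.Results.MP_e457e7_co.EliminationOrderings

/-- The finite set `X` is nonempty and any two of its elements are joined, in both directions, by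
directed `R`-paths inside `X`. -/
def StronglyConnected {V : Type} (R : V → V → Prop) (X : Finset V) : Prop :=
  X.Nonempty ∧ ∀ x ∈ X, ∀ y ∈ X, Relation.ReflTransGen (fun a b => a ∈ X ∧ b ∈ X ∧ R a b) x y

/-- `v` has at most two later neighbours, and any two of them are joined in both directions. -/
def TwoNeighbours {V : Type} (R : V → V → Prop) (ord : V → ℕ) (r0 v : V) : Prop :=
  (∀ T : Finset V, (∀ x ∈ T, x ≠ r0 ∧ ord v < ord x ∧ (R v x ∨ R x v)) → T.card ≤ 2) ∧
  (∀ x y, x ≠ r0 → y ≠ r0 → ord v < ord x → ord v < ord y → (R v x ∨ R x v) →
      (R v y ∨ R y v) → x ≠ y → R x y)

/-- Some vertex `u ≠ v` lies in each strongly connected set consisting of `v` and of one or more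
later vertices; if `u` is itself a later vertex, then each later in-neighbour of `v` is joined to `u`
and `u` is joined to each later out-neighbour of `v`. -/
def Dominated {V : Type} (R : V → V → Prop) (ord : V → ℕ) (r0 v : V) : Prop :=
  ∃ u, u ≠ v ∧
    (∀ X : Finset V, v ∈ X → (∃ y ∈ X, y ≠ v) → (∀ x ∈ X, x ≠ v → x ≠ r0 ∧ ord v < ord x) →
      StronglyConnected R X → u ∈ X) ∧
    (u ≠ r0 → ord v < ord u →
      (∀ a, a ≠ r0 → ord v < ord a → a ≠ u → R a v → R a u) ∧
      (∀ b, b ≠ r0 → ord v < ord b → b ≠ u → R v b → R u b))

/-- Let `c(a) ≤ l` for all arcs, and suppose that `D` has a capacity-obeying packing of `k l` spanning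
`r0`-arborescences. Let `R` be a relation with `R (tail a) (head a)` for each arc `a` (not a loop) on a
directed cycle of `D - r0`, and suppose that the vertices can be ordered such that each `v ≠ r0` has at
most two later neighbours, joined in both directions, or is dominated in the above sense. Then `D` has
a capacity-obeying packing of `l` `k`-arborescences. -/
theorem result
    (V A : Type) [Fintype V] [Fintype A] [DecidableEq V] [DecidableEq A]
    (tail head : A → V) (r0 : V) (c : A → ℕ) (k l : ℕ)
    (IsArb : Finset A → Prop)
    (hArb : ∀ T : Finset A, IsArb T ↔
      ((∀ a ∈ T, head a ≠ r0) ∧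
       (∀ v : V, v ≠ r0 → ∃! a : A, a ∈ T ∧ head a = v) ∧
       (∀ v : V, Relation.ReflTransGen
          (fun x y : V => ∃ a ∈ T, tail a = x ∧ head a = y) r0 v)))
    (R : V → V → Prop) (ord : V → ℕ) (hord : Function.Injective ord)
    (hR : ∀ a, tail a ≠ r0 → head a ≠ r0 → tail a ≠ head a →
      Relation.ReflTransGen (fun x y => x ≠ r0 ∧ y ≠ r0 ∧ ∃ b, tail b = x ∧ head b = y)
        (head a) (tail a) → R (tail a) (head a))
    (hstep : ∀ v, v ≠ r0 → TwoNeighbours R ord r0 v ∨ Dominated R ord r0 v)
    (hc : ∀ a : A, c a ≤ l)
    (hex : ∃ T : Fin (k * l) → Finset A,
      (∀ i, IsArb (T i)) ∧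
      ∀ a : A, (Finset.univ.filter (fun i => a ∈ T i)).card ≤ c a) :
    ∃ B : Fin l → Fin k → Finset A,
      (∀ i j, IsArb (B i j)) ∧
      (∀ i : Fin l, ∀ j j' : Fin k, j ≠ j' → Disjoint (B i j) (B i j')) ∧
      ∀ a : A, (Finset.univ.filter
        (fun p : Fin l × Fin k => a ∈ B p.1 p.2)).card ≤ c a := by
  obtain ⟨T, hT1, hT2⟩ := hex
  obtain ⟨B, h1, h2, h3⟩ := Pool.Agent.T2h30.KA.main4 V A tail head r0 c k l R ord hord hR
    (fun v hv => hstep v hv) hc ⟨T, fun i => (hArb _).1 (hT1 i), hT2⟩
  exact ⟨B, fun i j => (hArb _).2 (h1 i j), h2, h3⟩

end Pool.Agent.Results.MP_e457e7_co.EliminationOrderings
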